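import Pool.Agent.H678.GD.Lift

set_option autoImplicit false

/-!
# Goddyn's conjecture fails for every graph that can be contracted to the Petersen graph

`PetersenContraction G φ`: the fibres of `φ` induce connected subgraphs of `G`, and two different
fibres are joined by at least one edge if and only if the corresponding vertices of the Petersen
graph are adjacent (so contracting the fibres gives the Petersen graph with parallel edges).

1. Every bridgeless graph with such a map `φ` has, for every `m`, an admissible eulerian weight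
with all values at least `m` and without a faithful circuit cover.

2. In particular there are such graphs of arbitrarily high (vertex) connectivity: the graphs
`blow k`, in which every vertex of the Petersen graph is replaced by a complete graph with `k`
vertices.

Proof. One edge of every bundle of parallel edges is chosen, all the other edges between the
fibres get the weight `m`, and the chosen edges get weights such that the bundles over the edges
of the two pentagons have the same odd weight `c` and the chosen edges over the spokes are as heavy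
as all other edges together in the cuts around the fibres. The weight extends to the edges inside
the fibres, one edge at a time: as the weight of a new edge one takes the least total weight of the
other edges in a cut through this edge. By the tight cuts a cycle of a faithful cover passes every
fibre at most once and uses then a chosen spoke, and therefore it contains an even number of edges
over the outer pentagon; but the total weight of these edges is `5 c`, which is odd.
-/

namespace Pool.Agent.Results.MP_5dc923_co.ContractibleToPetersen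

open Finset SimpleGraph Pool.Agent.H678.GD

/-- The Petersen graph with every vertex replaced by a complete graph with `k` vertices (and every
edge by all edges between the two complete graphs). -/
def blow (k : ℕ) : SimpleGraph (PV × Fin k) where
  Adj x y := (x.1 = y.1 ∧ x.2 ≠ y.2) ∨ petersen.Adj x.1 y.1
  symm := ⟨by
    rintro x y (⟨h1, h2⟩ | h)
    · exact Or.inl ⟨h1.symm, h2.symm⟩
    · exact Or.inr h.symm⟩
  loopless := ⟨by
    rintro x (⟨_, h⟩ | h)
    · exact h rfl
    · exact petersen.irrefl h⟩

theorem petersen_diam : ∀ u v : PV, u = v ∨ petersen.Adj u v ∨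
    ∃ t : PV, petersen.Adj u t ∧ petersen.Adj t v := by
  decide +kernel

theorem petersen_nbr : ∀ u : PV, ∃ t : PV, petersen.Adj u t := by
  decide +kernel

theorem blow_connected (k : ℕ) (S : Finset (PV × Fin k)) (hS : S.card < k) :
    ((blow k).induce {x | x ∉ S}).Connected := by
  classical
  have free : ∀ v : PV, ∃ i : Fin k, (v, i) ∉ S := by
    intro v
    by_contra h
    push Not at h
    have h1 : (univ : Finset (Fin k)).image (fun i => (v, i)) ⊆ S := by
      intro x hx
      obtain ⟨i, _, rfl⟩ := Finset.mem_image.1 hx
      exact h i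
    have h2 := Finset.card_le_card h1
    rw [Finset.card_image_of_injective _ (fun i j hij => (Prod.ext_iff.1 hij).2),
      Finset.card_univ, Fintype.card_fin] at h2
    omega
  have step : ∀ (x y : {x | x ∉ S}), petersen.Adj (x : PV × Fin k).1 (y : PV × Fin k).1 →
      ((blow k).induce {x | x ∉ S}).Reachable x y := by
    intro x y h
    exact SimpleGraph.Adj.reachable (Or.inr h)
  have two : ∀ (x y : {x | x ∉ S}) (t : PV), petersen.Adj (x : PV × Fin k).1 t →
      petersen.Adj t (y : PV × Fin k).1 → ((blow k).induce {x | x ∉ S}).Reachable x y := by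
    intro x y t h1 h2
    obtain ⟨i, hi⟩ := free t
    exact (step x ⟨(t, i), hi⟩ h1).trans (step ⟨(t, i), hi⟩ y h2)
  rw [SimpleGraph.connected_iff]
  refine ⟨?_, ?_⟩
  · intro x y
    rcases petersen_diam (x : PV × Fin k).1 (y : PV × Fin k).1 with h | h | ⟨t, h1, h2⟩
    · obtain ⟨t, ht⟩ := petersen_nbr (x : PV × Fin k).1
      exact two x y t ht (h ▸ ht.symm)
    · exact step x y h
    · exact two x y t h1 h2
  · obtain ⟨i, hi⟩ := free (0, false)
    exact ⟨⟨((0, false), i), hi⟩⟩

theorem blow_bridgeless (k : ℕ) (hk : 2 ≤ k) : Bridgeless (blow k) := by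
  rintro ⟨u, i⟩ ⟨v, j⟩ h
  -- a path of length two
  have path : ∀ z : PV × Fin k, (blow k).Adj (u, i) z → (blow k).Adj z (v, j) →
      z ≠ (u, i) → z ≠ (v, j) →
      (blow k \ fromEdgeSet {s((u, i), (v, j))}).Reachable (u, i) (v, j) := by
    intro z h1 h2 h3 h4
    have e1 : (blow k \ fromEdgeSet {s((u, i), (v, j))}).Adj (u, i) z := by
      rw [SimpleGraph.sdiff_adj, SimpleGraph.fromEdgeSet_adj]
      refine ⟨h1, fun h5 => ?_⟩
      rcases Sym2.eq_iff.1 (Set.mem_singleton_iff.1 h5.1) with ⟨_, h6⟩ | ⟨_, h6⟩
      · exact h4 h6
      · exact h3 h6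
    have e2 : (blow k \ fromEdgeSet {s((u, i), (v, j))}).Adj z (v, j) := by
      rw [SimpleGraph.sdiff_adj, SimpleGraph.fromEdgeSet_adj]
      refine ⟨h2, fun h5 => ?_⟩
      rcases Sym2.eq_iff.1 (Set.mem_singleton_iff.1 h5.1) with ⟨h6, _⟩ | ⟨h6, _⟩
      · exact h3 h6
      · exact h4 h6
    exact e1.reachable.trans e2.reachable
  rcases h with ⟨h1, h2⟩ | h
  · simp only at h1 h2
    subst h1
    obtain ⟨t, ht⟩ := petersen_nbr u
    refine path (t, i) (Or.inr ht) (Or.inr ht.symm) ?_ ?_
    · intro h
      exact ht.ne (Prod.ext_iff.1 h).1.symm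
    · intro h
      exact ht.ne (Prod.ext_iff.1 h).1.symm
  · simp only at h
    have : Nontrivial (Fin k) := Fin.nontrivial_iff_two_le.2 hk
    obtain ⟨l, hl⟩ := exists_ne i
    refine path (u, l) (Or.inl ⟨rfl, hl.symm⟩) (Or.inr h) ?_ ?_
    · intro h'
      exact hl (Prod.ext_iff.1 h').2
    · intro h'
      exact h.ne (Prod.ext_iff.1 h').1

theorem blow_contraction (k : ℕ) (hk : 2 ≤ k) :
    PetersenContraction (blow k) (fun x : PV × Fin k => x.1) where
  conn v := by
    rw [SimpleGraph.connected_iff]
    refine ⟨?_, ?_⟩
    · rintro ⟨⟨u, i⟩, hu⟩ ⟨⟨w, j⟩, hw⟩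
      by_cases hij : i = j
      · have : (⟨(u, i), hu⟩ : {x : PV × Fin k | x.1 = v}) = ⟨(w, j), hw⟩ := by
          have h1 : u = v := hu
          have h2 : w = v := hw
          subst hij h1 h2
          rfl
        rw [this]
      · refine SimpleGraph.Adj.reachable (Or.inl ⟨?_, hij⟩)
        have h1 : u = v := hu
        have h2 : w = v := hw
        exact h1.trans h2.symm
    · exact ⟨⟨(v, ⟨0, by omega⟩), rfl⟩⟩
  adj u v huv := by
    constructor
    · rintro ⟨⟨x, i⟩, ⟨y, j⟩, hx, hy, ⟨h1, _⟩ | h⟩
      · simp only at hx hy h1
        exact absurd (hx.symm.trans (h1.trans hy)) huv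
      · simp only at hx hy h
        rwa [hx, hy] at h
    · intro h
      exact ⟨(u, ⟨0, by omega⟩), (v, ⟨0, by omega⟩), rfl, rfl, Or.inr h⟩

theorem result :
    (∀ (V : Type) [Fintype V] (G : SimpleGraph V) (φ : V → PV), Bridgeless G →
      PetersenContraction G φ → ∀ m : ℕ, ∃ w : Sym2 V → ℕ, (∀ e, m ≤ w e) ∧
        Eulerian G w ∧ Admissible G w ∧ ∀ r : ℕ, Odd r → ¬ FaithfulCover G (fun e => r * w e)) ∧
    (∀ k : ℕ, 2 ≤ k → Bridgeless (blow k) ∧
      (∀ S : Finset (PV × Fin k), S.card < k → ((blow k).induce {x | x ∉ S}).Connected) ∧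
      ∀ m : ℕ, ∃ w : Sym2 (PV × Fin k) → ℕ, (∀ e, m ≤ w e) ∧
        Eulerian (blow k) w ∧ Admissible (blow k) w ∧
        ∀ r : ℕ, Odd r → ¬ FaithfulCover (blow k) (fun e => r * w e)) :=
  ⟨fun _ _ _ _ hG hφ m => contraction_bad hG hφ m,
    fun k hk => ⟨blow_bridgeless k hk, blow_connected k,
      fun m => contraction_bad (blow_bridgeless k hk) (blow_contraction k hk) m⟩⟩

end Pool.Agent.Results.MP_5dc923_co.ContractibleToPetersen
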